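import Pool.Agent.helper63.NU.Defs2

set_option autoImplicit false
set_option linter.all false

/-! Module B7a: an abstract Hilbert space lemma. -/

open MeasureTheory Filter Topology Set
open scoped ContDiff Manifold Matrix ENNReal ComplexOrder

noncomputable section

namespace Pool.Agent.helper63.NU

/-- Cauchy-Schwarz for a semidefinite Hermitian form -/
private theorem cs_h40 {D : Type*} [AddCommGroup D] [Module ℂ D]
    (B : D → D → ℂ) (hadd : ∀ a b c, B (a + b) c = B a c + B b c)
    (hsmul : ∀ (z : ℂ) a b, B (z • a) b = z * B a b)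
    (hconj : ∀ a b, (starRingEnd ℂ) (B a b) = B b a) (hpos : ∀ a, 0 ≤ (B a a).re) (a b : D) :
    ‖B a b‖ ^ 2 ≤ (B a a).re * (B b b).re := by
  let c : PreInnerProductSpace.Core ℂ D :=
    { inner := fun x y => B y x
      conj_inner_symm := fun x y => hconj _ _
      re_inner_nonneg := fun x => hpos x
      add_left := fun x y z => by
        change B z (x + y) = B z x + B z y
        rw [← hconj (x + y) z, hadd, map_add, hconj, hconj]
      smul_left := fun x y r => by
        change B y (r • x) = (starRingEnd ℂ) r * B y x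
        rw [← hconj (r • x) y, hsmul, map_mul, hconj] }
  have h := @InnerProductSpace.Core.inner_mul_inner_self_le ℂ D _ _ _ c b a
  have e1 : ‖B b a‖ = ‖B a b‖ := by rw [← hconj a b, RCLike.norm_conj]
  change ‖B a b‖ * ‖B b a‖ ≤ (B b b).re * (B a a).re at h
  rw [e1] at h
  linarith [sq (‖B a b‖)]

/-- abstract lemma in a pre-Hilbert space `D` -/
theorem hilbert_lemma {D : Type*} [AddCommGroup D] [Module ℂ D]
    (ipD : D → D → ℂ) (hadd : ∀ a b c, ipD (a + b) c = ipD a c + ipD b c)
    (hsmul : ∀ (z : ℂ) a b, ipD (z • a) b = z * ipD a b)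
    (hconj : ∀ a b, (starRingEnd ℂ) (ipD a b) = ipD b a) (hpos : ∀ a, 0 ≤ (ipD a a).re)
    (L : D → D) (hLadd : ∀ a b, L (a + b) = L a + L b) (hLsmul : ∀ (z : ℂ) a, L (z • a) = z • L a)
    (hself : ∀ a b, ipD (L a) b = ipD a (L b)) (hLpos : ∀ a, 0 ≤ (ipD (L a) a).re)
    (hB : ∀ a, (ipD (L a) a).re ≤ (ipD (L a) (L a)).re) (O : Set D)
    (hR : ∀ v : ℕ → D, (∀ ε > 0, ∃ N, ∀ i ≥ N, ∀ j ≥ N, (ipD (v i - v j) (v i - v j)).re ≤ ε) →
      (∀ u, Tendsto (fun i => ipD (v i) (L u)) atTop (𝓝 0)) →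
      ∃ h ∈ O, Tendsto (fun i => (ipD (v i - h) (v i - h)).re) atTop (𝓝 0)) (σ : D) :
    ∃ h ∈ O, (∀ u, ipD h (L u) = 0) ∧ (ipD (σ - h) (σ - h)).re ≤ (ipD (L σ) σ).re ∧
      ∀ g, (∀ u, ipD g (L u) = 0) → ipD (σ - h) g = 0 := by
  have CS := cs_h40 ipD hadd hsmul hconj hpos
  have haddr : ∀ a b c, ipD c (a + b) = ipD c a + ipD c b := fun a b c => by
    rw [← hconj (a + b) c, hadd, map_add, hconj, hconj]
  have hsmulr : ∀ (z : ℂ) a b, ipD b (z • a) = (starRingEnd ℂ) z * ipD b a := fun z a b => by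
    rw [← hconj (z • a) b, hsmul, map_mul, hconj]
  have hneg : ∀ a b, ipD (-a) b = -ipD a b := fun a b => by
    have := hsmul (-1) a b
    simpa using this
  have hnegr : ∀ a b, ipD b (-a) = -ipD b a := fun a b => by
    have := hsmulr (-1) a b
    simpa using this
  have hsub : ∀ a b c, ipD (a - b) c = ipD a c - ipD b c := fun a b c => by
    rw [sub_eq_add_neg, hadd, hneg, sub_eq_add_neg]
  have hsubr : ∀ a b c, ipD c (a - b) = ipD c a - ipD c b := fun a b c => by
    rw [sub_eq_add_neg, haddr, hnegr, sub_eq_add_neg]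
  set Q : D → ℝ := fun a => (ipD a a).re with hQ
  have hQ0 : ∀ a, 0 ≤ Q a := hpos
  have hLsub : ∀ a b, L (a - b) = L a - L b := fun a b => by
    have := hLadd (a - b) b
    rw [sub_add_cancel] at this
    exact (sub_eq_of_eq_add this).symm
  -- the distance
  set d2 : ℝ := ⨅ w : D, Q (σ - L w) with hd2
  have hbdd : BddBelow (range fun w : D => Q (σ - L w)) := ⟨0, by rintro _ ⟨w, rfl⟩; exact hQ0 _⟩
  have hd2le : ∀ w, d2 ≤ Q (σ - L w) := fun w => ciInf_le hbdd w
  have hex : ∀ i : ℕ, ∃ w : D, Q (σ - L w) < d2 + 1 / ((i : ℝ) + 1) := fun i =>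
    exists_lt_of_ciInf_lt (lt_add_of_pos_right _ (by positivity))
  choose w hw using hex
  set v : ℕ → D := fun i => σ - L (w i) with hv
  have hvQ : ∀ i, d2 ≤ Q (v i) := fun i => hd2le _
  have hvQ' : ∀ i, Q (v i) < d2 + 1 / ((i : ℝ) + 1) := hw
  -- parallelogram
  have hpar : ∀ a b, Q (a - b) = 2 * Q a + 2 * Q b - 4 * Q ((1 / 2 : ℂ) • (a + b)) := fun a b => by
    have e1 : ipD ((1 / 2 : ℂ) • (a + b)) ((1 / 2 : ℂ) • (a + b)) =
        (1 / 4 : ℂ) * (ipD a a + ipD a b + ipD b a + ipD b b) := by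
      rw [hsmul, hsmulr, hadd, haddr, haddr]
      have : (starRingEnd ℂ) (1 / 2 : ℂ) = 1 / 2 := by rw [map_div₀, map_one, map_ofNat]
      rw [this]; ring
    have e2 : ipD (a - b) (a - b) = ipD a a - ipD a b - ipD b a + ipD b b := by
      rw [hsub, hsubr, hsubr]; ring
    simp only [hQ, e1, e2]
    have e3 : ((1 / 4 : ℂ) * (ipD a a + ipD a b + ipD b a + ipD b b)).re =
      (1 / 4 : ℝ) * (ipD a a + ipD a b + ipD b a + ipD b b).re := by
      have : (1 / 4 : ℂ) = ((1 / 4 : ℝ) : ℂ) := by norm_num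
      rw [this, Complex.re_ofReal_mul]
    rw [e3]
    simp only [Complex.add_re, Complex.sub_re]
    ring
  have hhalf : ∀ i j, d2 ≤ Q ((1 / 2 : ℂ) • (v i + v j)) := fun i j => by
    have : (1 / 2 : ℂ) • (v i + v j) = σ - L ((1 / 2 : ℂ) • (w i + w j)) := by
      rw [hLsmul, hLadd]
      simp only [hv, smul_add, smul_sub]
      have : σ = (1 / 2 : ℂ) • σ + (1 / 2 : ℂ) • σ := by
        rw [← add_smul]; norm_num
      nth_rewrite 3 [this]
      abel
    rw [this]; exact hd2le _
  have hcauchy : ∀ i j, Q (v i - v j) ≤ 2 * (1 / ((i : ℝ) + 1)) + 2 * (1 / ((j : ℝ) + 1)) := by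
    intro i j
    rw [hpar]
    have h1 := hvQ' i
    have h2 := hvQ' j
    have h3 := hhalf i j
    linarith
  have hlim1 : Tendsto (fun i : ℕ => 1 / ((i : ℝ) + 1)) atTop (𝓝 0) :=
    tendsto_one_div_add_atTop_nhds_zero_nat
  -- orthogonality in the limit
  have horth : ∀ u, Tendsto (fun i => ipD (v i) (L u)) atTop (𝓝 0) := by
    intro u
    have hmain : ∀ i, ‖ipD (v i) (L u)‖ ^ 2 ≤ (1 + Q (L u)) * (1 / ((i : ℝ) + 1)) := by
      intro i
      set z := ipD (v i) (L u) with hz
      set q := Q (L u) with hq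
      have hq0 : 0 ≤ q := hQ0 _
      -- t = z / (1 + q)
      set t : ℂ := ((1 / (1 + q) : ℝ) : ℂ) * z with ht
      have h1 : Q (v i - t • L u) = Q (v i) - 2 * (1 / (1 + q)) * ‖z‖ ^ 2 +
          (1 / (1 + q)) ^ 2 * ‖z‖ ^ 2 * q := by
        have e1 : ipD (v i - t • L u) (v i - t • L u) = ipD (v i) (v i) -
            (starRingEnd ℂ) t * z - t * (starRingEnd ℂ) z + t * (starRingEnd ℂ) t *
              ipD (L u) (L u) := by
          rw [hsub (v i) (t • L u) _, hsubr (v i) (t • L u) (v i),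
            hsubr (v i) (t • L u) (t • L u), hsmul, hsmul, hsmulr, hsmulr, hz,
            hconj (v i) (L u)]
          ring
        have e2 : (starRingEnd ℂ) t * z = ((1 / (1 + q) * ‖z‖ ^ 2 : ℝ) : ℂ) := by
          rw [ht, map_mul, Complex.conj_ofReal, mul_assoc, Complex.conj_mul']
          push_cast; ring
        have e3 : t * (starRingEnd ℂ) z = ((1 / (1 + q) * ‖z‖ ^ 2 : ℝ) : ℂ) := by
          rw [ht, mul_assoc, Complex.mul_conj']
          push_cast; ring
        have e4 : t * (starRingEnd ℂ) t = (((1 / (1 + q)) ^ 2 * ‖z‖ ^ 2 : ℝ) : ℂ) := by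
          rw [Complex.mul_conj', ht, norm_mul, Complex.norm_real, Real.norm_eq_abs,
            abs_of_nonneg (by positivity)]
          push_cast; ring
        simp only [hQ]
        rw [e1, e2, e3, e4]
        simp only [Complex.add_re, Complex.sub_re, Complex.ofReal_re, Complex.re_ofReal_mul]
        simp only [hq, hQ]
        ring
      have h2 : d2 ≤ Q (v i - t • L u) := by
        have : v i - t • L u = σ - L (w i + t • u) := by
          rw [hLadd, hLsmul]; simp only [hv]; abel
        rw [this]; exact hd2le _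
      have h3 := hvQ' i
      have h4 : 2 * (1 / (1 + q)) * ‖z‖ ^ 2 - (1 / (1 + q)) ^ 2 * ‖z‖ ^ 2 * q ≤
          1 / ((i : ℝ) + 1) := by linarith
      have h5 : 1 / (1 + q) * ‖z‖ ^ 2 ≤
          2 * (1 / (1 + q)) * ‖z‖ ^ 2 - (1 / (1 + q)) ^ 2 * ‖z‖ ^ 2 * q := by
        have h6 : 1 / (1 + q) * q ≤ 1 := by
          rw [div_mul_eq_mul_div, one_mul, div_le_one (by positivity)]; linarith
        have h7 : 0 ≤ 1 / (1 + q) * ‖z‖ ^ 2 := by positivity
        nlinarith
      have h8 : 1 / (1 + q) * ‖z‖ ^ 2 ≤ 1 / ((i : ℝ) + 1) := h5.trans h4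
      have h9 : ‖z‖ ^ 2 = (1 + q) * (1 / (1 + q) * ‖z‖ ^ 2) := by
        have : (1 + q) ≠ 0 := by positivity
        field_simp
      rw [h9]
      exact mul_le_mul_of_nonneg_left h8 (by positivity)
    rw [tendsto_zero_iff_norm_tendsto_zero]
    have h10 : Tendsto (fun i : ℕ => ‖ipD (v i) (L u)‖ ^ 2) atTop (𝓝 0) := by
      refine squeeze_zero (fun i => by positivity) hmain ?_
      simpa using hlim1.const_mul (1 + Q (L u))
    have h11 := h10.sqrt
    simpa [Real.sqrt_sq] using h11
  obtain ⟨h, hO, hlim⟩ := hR v (by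
    intro ε hε
    obtain ⟨N, hN⟩ := (hlim1.eventually (gt_mem_nhds (show (0 : ℝ) < ε / 4 by positivity))).exists_forall_of_atTop
    refine ⟨N, fun i hi j hj => ?_⟩
    have := hcauchy i j
    have h1 := hN i hi
    have h2 := hN j hj
    linarith) horth
  -- limits of products
  have hprod : ∀ b, Tendsto (fun i => ipD (v i - h) b) atTop (𝓝 0) := by
    intro b
    rw [tendsto_zero_iff_norm_tendsto_zero]
    have h10 : Tendsto (fun i : ℕ => ‖ipD (v i - h) b‖ ^ 2) atTop (𝓝 0) := by
      refine squeeze_zero (fun i => by positivity) (fun i => CS _ _) ?_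
      simpa using hlim.mul_const (Q b)
    have h11 := h10.sqrt
    simpa [Real.sqrt_sq] using h11
  have hh : ∀ u, ipD h (L u) = 0 := by
    intro u
    have h1 := (horth u).sub (hprod (L u))
    have h2 : (fun i => ipD (v i) (L u) - ipD (v i - h) (L u)) = fun _ => ipD h (L u) := by
      funext i; rw [hsub (v i) h (L u)]; ring
    rw [h2] at h1
    have := tendsto_nhds_unique tendsto_const_nhds h1
    simpa using this
  have hLw : ∀ i, σ - h = (v i - h) + L (w i) := fun i => by simp only [hv]; abel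
  refine ⟨h, hO, hh, ?_, ?_⟩
  · -- the estimate
    set s := Q (σ - h) with hs
    set A := (ipD (L σ) σ).re with hA
    have hs0 : 0 ≤ s := hQ0 _
    have hA0 : 0 ≤ A := hLpos σ
    -- Q (L (w i)) → s
    have hQL : Tendsto (fun i => Q (L (w i))) atTop (𝓝 s) := by
      have e : ∀ i, Q (L (w i)) = s - 2 * (ipD (v i - h) (σ - h)).re + Q (v i - h) := by
        intro i
        have e0 : L (w i) = (σ - h) - (v i - h) := by rw [hLw i]; abel
        simp only [hQ, hs]
        rw [e0]
        have e1 : ipD (σ - h - (v i - h)) (σ - h - (v i - h)) = ipD (σ - h) (σ - h) -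
          ipD (σ - h) (v i - h) - ipD (v i - h) (σ - h) + ipD (v i - h) (v i - h) := by
          rw [hsub (σ - h), hsubr (σ - h) (v i - h), hsubr (σ - h) (v i - h)]; ring
        rw [e1]
        have e2 : (ipD (σ - h) (v i - h)).re = (ipD (v i - h) (σ - h)).re := by
          rw [← hconj (v i - h) (σ - h), Complex.conj_re]
        simp only [Complex.add_re, Complex.sub_re, e2]
        ring
      simp_rw [e]
      have h1 : Tendsto (fun i => (ipD (v i - h) (σ - h)).re) atTop (𝓝 0) := by
        have := (Complex.continuous_re.tendsto 0).comp (hprod (σ - h))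
        simpa [Function.comp_def] using this
      have := ((tendsto_const_nhds (x := s)).sub (h1.const_mul 2)).add hlim
      simpa using this
    have CSL := cs_h40 (fun a b => ipD (L a) b) (fun a b c => by simp only [hLadd, hadd])
      (fun z a b => by simp only [hLsmul, hsmul])
      (fun a b => by simp only [hconj, hself]) hLpos
    -- the main inequality
    have hineq : ∀ i, s ≤ ‖ipD (v i - h) (σ - h)‖ + √(A * Q (L (w i))) := by
      intro i
      have e1 : ipD (σ - h) (σ - h) = ipD (v i - h) (σ - h) + ipD (L (w i)) (σ - h) := by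
        nth_rewrite 1 [hLw i]
        rw [hadd]
      have e2 : ipD (L (w i)) (σ - h) = ipD (L (w i)) σ := by
        rw [hsubr]
        have : ipD (L (w i)) h = 0 := by rw [← hconj h (L (w i)), hh, map_zero]
        rw [this, sub_zero]
      have e3 : ‖ipD (L (w i)) σ‖ ^ 2 ≤ A * Q (L (w i)) := by
        have h1 := CSL (w i) σ
        have h2 := hB (w i)
        calc ‖ipD (L (w i)) σ‖ ^ 2 ≤ (ipD (L (w i)) (w i)).re * (ipD (L σ) σ).re := h1
          _ ≤ (ipD (L (w i)) (L (w i))).re * (ipD (L σ) σ).re :=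
            mul_le_mul_of_nonneg_right h2 hA0
          _ = A * Q (L (w i)) := by simp only [hQ, hA]; ring
      have e4 : ‖ipD (L (w i)) σ‖ ≤ √(A * Q (L (w i))) := Real.le_sqrt_of_sq_le e3
      calc s = (ipD (σ - h) (σ - h)).re := rfl
        _ ≤ ‖ipD (σ - h) (σ - h)‖ := Complex.re_le_norm _
        _ ≤ ‖ipD (v i - h) (σ - h)‖ + ‖ipD (L (w i)) (σ - h)‖ := by rw [e1]; exact norm_add_le _ _
        _ ≤ _ := by rw [e2]; linarith
    have hfin : s ≤ √(A * s) := by
      have h1 : Tendsto (fun i => ‖ipD (v i - h) (σ - h)‖ + √(A * Q (L (w i)))) atTop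
          (𝓝 (0 + √(A * s))) := by
        refine Tendsto.add ?_ ((hQL.const_mul A).sqrt)
        simpa using (hprod (σ - h)).norm
      rw [zero_add] at h1
      exact ge_of_tendsto' h1 hineq
    rcases hs0.eq_or_lt with h0 | h0
    · change s ≤ A
      rw [← h0]; exact hA0
    · have h1 : s ^ 2 ≤ A * s := by
        have := pow_le_pow_left₀ hs0 hfin 2
        rwa [Real.sq_sqrt (by positivity)] at this
      change s ≤ A
      nlinarith
  · intro g hg
    have e : ∀ i, ipD (v i - h) g = ipD (σ - h) g := by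
      intro i
      rw [hLw i, hadd]
      have : ipD (L (w i)) g = 0 := by rw [← hconj g (L (w i)), hg, map_zero]
      rw [this, add_zero]
    have h1 := hprod g
    simp_rw [e] at h1
    exact tendsto_nhds_unique tendsto_const_nhds h1

end Pool.Agent.helper63.NU
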