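import Pool.Agent.helper63.NU.Defs2

set_option autoImplicit false
set_option linter.all false

/-! Module A5: sub-mean value inequality on polydiscs and the complex Gaussian integral. -/

open MeasureTheory Filter Topology Set
open scoped ContDiff Manifold Matrix ENNReal ComplexOrder

noncomputable section

namespace Pool.Agent.helper63.NU

variable {n : ℕ}

/-- multiplication by a unimodular number preserves the measure of `ℂ^n` -/
private theorem mp_smul_h40 (c : ℂ) (hc : ‖c‖ = 1) :
    MeasurePreserving (fun z : E n => c • z) volume volume := by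
  have h1 : MeasurePreserving (fun w : ℂ => c * w) volume volume := by
    have hc' : c ∈ Submonoid.unitSphere ℂ := by
      simp [Submonoid.unitSphere, hc]
    have := (rotation ⟨c, hc'⟩).measurePreserving
    exact this
  have h2 := volume_preserving_pi (α' := fun _ : Fin n => ℂ) (β' := fun _ : Fin n => ℂ)
    (f := fun _ w => c * w) (fun _ => h1)
  exact h2

theorem vol_h40 (p : E n) {r : ℝ} (hr : 0 < r) :
    (volume (Metric.closedBall p r)).toReal = (Real.pi * r ^ 2) ^ n := by
  rw [closedBall_pi _ hr.le, volume_pi_pi]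
  simp only [Complex.volume_closedBall, Finset.prod_const, Finset.card_univ, Fintype.card_fin]
  rw [ENNReal.toReal_pow, ENNReal.toReal_mul, ENNReal.toReal_pow, ENNReal.toReal_ofReal hr.le]
  congr 1
  rw [mul_comm]
  rfl

/-- mean value property on a polydisc -/
theorem mean_h40 {g : E n → ℂ} {p : E n} {r : ℝ} (hr : 0 < r)
    (hg : DifferentiableOn ℂ g (Metric.closedBall p r)) :
    g p * ((Real.pi * r ^ 2) ^ n : ℝ) = ∫ y in Metric.closedBall p r, g y := by
  have hshift : ∫ y in Metric.closedBall p r, g y =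
      ∫ z in Metric.closedBall (0 : E n) r, g (p + z) := by
    have h1 : MeasurePreserving (fun z : E n => p + z) volume volume :=
      measurePreserving_add_left volume p
    have h2 := h1.setIntegral_preimage_emb (measurableEmbedding_addLeft p) g
      (Metric.closedBall p r)
    rw [← h2]
    congr 2
    ext z
    simp [dist_eq_norm]
  have hrot : ∀ θ : ℝ, ∫ z in Metric.closedBall (0 : E n) r, g (p + z) =
      ∫ z in Metric.closedBall (0 : E n) r, g (p + circleMap 0 1 θ • z) := by
    intro θ
    have hc : ‖circleMap 0 1 θ‖ = 1 := by simp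
    have hc0 : circleMap 0 1 θ ≠ 0 := by
      intro h; rw [h] at hc; simp at hc
    have h1 := mp_smul_h40 (n := n) (circleMap 0 1 θ) hc
    have hemb : MeasurableEmbedding (fun z : E n => circleMap 0 1 θ • z) :=
      (Homeomorph.smulOfNeZero (circleMap 0 1 θ) hc0).measurableEmbedding
    have h2 := h1.setIntegral_preimage_emb hemb (fun z => g (p + z))
      (Metric.closedBall (0 : E n) r)
    rw [← h2]
    congr 2
    ext z
    simp [norm_smul, hc]
  have hcirc : ∀ z ∈ Metric.closedBall (0 : E n) r,
      ∫ θ in (0 : ℝ)..2 * Real.pi, g (p + circleMap 0 1 θ • z) = (2 * Real.pi : ℝ) • g p := by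
    intro z hz
    have hz' : ‖z‖ ≤ r := by simpa using hz
    have hmap : ∀ w : ℂ, w ∈ Metric.closedBall (0 : ℂ) 1 → p + w • z ∈ Metric.closedBall p r := by
      intro w hw
      have hw' : ‖w‖ ≤ 1 := by simpa using hw
      rw [Metric.mem_closedBall, dist_eq_norm, add_sub_cancel_left, norm_smul]
      calc ‖w‖ * ‖z‖ ≤ 1 * r := mul_le_mul hw' hz' (norm_nonneg _) zero_le_one
        _ = r := one_mul r
    have hd : DifferentiableOn ℂ (fun w : ℂ => g (p + w • z)) (Metric.closedBall 0 1) := by
      refine hg.comp ?_ hmap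
      fun_prop
    have h1 : Real.circleAverage (fun w : ℂ => g (p + w • z)) 0 1 = g (p + (0 : ℂ) • z) := by
      apply DiffContOnCl.circleAverage
      rw [abs_one]
      exact hd.diffContOnCl_ball subset_rfl
    rw [Real.circleAverage_def, zero_smul, add_zero] at h1
    rw [← h1, smul_smul, mul_inv_cancel₀ (by positivity), one_smul]
  have hFub : ∫ θ in (0 : ℝ)..2 * Real.pi, ∫ z in Metric.closedBall (0 : E n) r,
        g (p + circleMap 0 1 θ • z) =
      ∫ z in Metric.closedBall (0 : E n) r, ∫ θ in (0 : ℝ)..2 * Real.pi,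
        g (p + circleMap 0 1 θ • z) := by
    rw [intervalIntegral.integral_of_le (by positivity)]
    simp_rw [intervalIntegral.integral_of_le (show (0 : ℝ) ≤ 2 * Real.pi by positivity)]
    apply integral_integral_swap
    rw [Measure.prod_restrict]
    have hcont : ContinuousOn (fun q : ℝ × E n => g (p + circleMap 0 1 q.1 • q.2))
        (Icc 0 (2 * Real.pi) ×ˢ Metric.closedBall (0 : E n) r) := by
      refine hg.continuousOn.comp ?_ ?_
      · have : Continuous (fun q : ℝ × E n => p + circleMap 0 1 q.1 • q.2) := by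
          have := continuous_circleMap (0 : ℂ) 1
          fun_prop
        exact this.continuousOn
      · rintro ⟨θ, z⟩ ⟨_, hz⟩
        have hz' : ‖z‖ ≤ r := by simpa using hz
        rw [Metric.mem_closedBall, dist_eq_norm, add_sub_cancel_left, norm_smul]
        simpa using hz'
    have hint : IntegrableOn (fun q : ℝ × E n => g (p + circleMap 0 1 q.1 • q.2))
        (Icc 0 (2 * Real.pi) ×ˢ Metric.closedBall (0 : E n) r) (volume.prod volume) :=
      hcont.integrableOn_compact (isCompact_Icc.prod (isCompact_closedBall _ _))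
    exact hint.mono_set (prod_mono Ioc_subset_Icc_self subset_rfl)
  have hL : ∫ θ in (0 : ℝ)..2 * Real.pi, ∫ z in Metric.closedBall (0 : E n) r,
        g (p + circleMap 0 1 θ • z) =
      (2 * Real.pi : ℝ) • ∫ y in Metric.closedBall p r, g y := by
    rw [hshift]
    simp_rw [← hrot]
    rw [intervalIntegral.integral_const, sub_zero]
  have hR : ∫ z in Metric.closedBall (0 : E n) r, ∫ θ in (0 : ℝ)..2 * Real.pi,
        g (p + circleMap 0 1 θ • z) =
      (2 * Real.pi : ℝ) • (g p * ((Real.pi * r ^ 2) ^ n : ℝ)) := by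
    rw [setIntegral_congr_fun measurableSet_closedBall hcirc, setIntegral_const, Measure.real,
      vol_h40 _ hr]
    simp only [Complex.real_smul]
    push_cast
    ring
  rw [hL, hR] at hFub
  have h2pi : (2 * Real.pi : ℝ) ≠ 0 := by positivity
  exact (smul_right_injective ℂ h2pi hFub).symm

theorem submean {f : E n → ℂ} {p : E n} {r : ℝ} (hr : 0 < r)
    (hf : DifferentiableOn ℂ f (Metric.closedBall p r)) :
    ‖f p‖ ^ 2 * (Real.pi * r ^ 2) ^ n ≤ ∫ y in Metric.closedBall p r, ‖f y‖ ^ 2 := by
  have h := mean_h40 hr (hf.pow 2)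
  have h1 : ‖f p‖ ^ 2 * (Real.pi * r ^ 2) ^ n = ‖∫ y in Metric.closedBall p r, f y ^ 2‖ := by
    have e : ‖(f ^ 2) p * (((Real.pi * r ^ 2) ^ n : ℝ) : ℂ)‖ =
        ‖f p‖ ^ 2 * (Real.pi * r ^ 2) ^ n := by
      rw [Pi.pow_apply, norm_mul, norm_pow, Complex.norm_real, Real.norm_of_nonneg (by positivity)]
    rw [← e, h]
    rfl
  rw [h1]
  calc ‖∫ y in Metric.closedBall p r, f y ^ 2‖
      ≤ ∫ y in Metric.closedBall p r, ‖f y ^ 2‖ := norm_integral_le_integral_norm _
    _ = ∫ y in Metric.closedBall p r, ‖f y‖ ^ 2 := by simp_rw [norm_pow]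

/-- the standard Gaussian integral on `ℂ^n` -/
theorem gauss_std_h40 {c : ℝ} (hc : 0 < c) :
    Integrable (fun z : E n => Real.exp (-(c * ∑ j, ‖z j‖ ^ 2))) ∧
    ∫ z : E n, Real.exp (-(c * ∑ j, ‖z j‖ ^ 2)) = (Real.pi / c) ^ n := by
  have hprod : (fun z : E n => Real.exp (-(c * ∑ j, ‖z j‖ ^ 2))) =
      fun z : E n => ∏ j, Real.exp (-c * ‖z j‖ ^ 2) := by
    funext z
    rw [← Real.exp_sum, Finset.mul_sum, ← Finset.sum_neg_distrib]
    simp
  have h1 : Integrable (fun w : ℂ => Real.exp (-c * ‖w‖ ^ 2)) := by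
    have := GaussianFourier.integrable_cexp_neg_mul_sq_norm_add (V := ℂ) (b := (c : ℂ))
      (by simpa using hc) 0 0
    have h2 := this.norm
    refine h2.congr (Filter.Eventually.of_forall fun w => ?_)
    simp only [Complex.norm_exp]
    congr 1
    simp
    left
    norm_cast
  have h2 : ∫ w : ℂ, Real.exp (-c * ‖w‖ ^ 2) = Real.pi / c := by
    rw [GaussianFourier.integral_rexp_neg_mul_sq_norm hc, Complex.finrank_real_complex]
    norm_num
  rw [hprod]
  constructor
  · exact Integrable.fintype_prod (f := fun _ : Fin n => fun w : ℂ => Real.exp (-c * ‖w‖ ^ 2))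
      (fun _ => h1)
  · rw [integral_fintype_prod_volume_eq_pow (fun w : ℂ => Real.exp (-c * ‖w‖ ^ 2)), h2]
    simp

theorem gauss {H : Matrix (Fin n) (Fin n) ℂ} (hH : H.PosDef) {c : ℝ} (hc : 0 < c) :
    Integrable (fun z : E n => Real.exp (-(c * (∑ j, ∑ k, H j k * z j * (starRingEnd ℂ) (z k)).re)))
    ∧ ∫ z : E n, Real.exp (-(c * (∑ j, ∑ k, H j k * z j * (starRingEnd ℂ) (z k)).re))
      = (Real.pi / c) ^ n / H.det.re := by
  obtain ⟨B, hB⟩ : ∃ B : Matrix (Fin n) (Fin n) ℂ, H = star B * B := by
    open scoped MatrixOrder in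
    exact CStarAlgebra.nonneg_iff_eq_star_mul_self.mp hH.posSemidef.nonneg
  set C : Matrix (Fin n) (Fin n) ℂ := B.map (starRingEnd ℂ) with hC
  have hdetH : H.det.re = ‖B.det‖ ^ 2 := by
    rw [hB, Matrix.det_mul, Matrix.star_eq_conjTranspose, Matrix.det_conjTranspose]
    change ((starRingEnd ℂ) B.det * B.det).re = _
    rw [Complex.conj_mul']
    norm_cast
  have hdet0 : 0 < H.det.re := by
    have := hH.det_pos
    exact (Complex.pos_iff.mp this).1
  have hdetC : C.det = (starRingEnd ℂ) B.det := by
    rw [hC, RingHom.map_det]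
    rfl
  have hq : ∀ z : E n, (∑ j, ∑ k, H j k * z j * (starRingEnd ℂ) (z k)).re =
      ∑ l, ‖(C.mulVec z) l‖ ^ 2 := by
    intro z
    have e : ∑ j, ∑ k, H j k * z j * (starRingEnd ℂ) (z k) =
        ∑ l, (C.mulVec z) l * (starRingEnd ℂ) ((C.mulVec z) l) := by
      have e1 : ∀ l, (C.mulVec z) l * (starRingEnd ℂ) ((C.mulVec z) l) =
          ∑ j, ∑ k, ((starRingEnd ℂ) (B l j) * B l k) * z j * (starRingEnd ℂ) (z k) := by
        intro l
        simp only [Matrix.mulVec, dotProduct, map_sum, map_mul, Finset.sum_mul_sum, hC,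
          Matrix.map_apply, Complex.conj_conj]
        refine Finset.sum_congr rfl fun j _ => Finset.sum_congr rfl fun k _ => ?_
        ring
      have e2 : ∀ j k, H j k = ∑ l, (starRingEnd ℂ) (B l j) * B l k := by
        intro j k
        rw [hB, Matrix.mul_apply]
        rfl
      calc ∑ j, ∑ k, H j k * z j * (starRingEnd ℂ) (z k)
          = ∑ j, ∑ k, ∑ l, ((starRingEnd ℂ) (B l j) * B l k) * z j * (starRingEnd ℂ) (z k) := by
            simp_rw [e2, Finset.sum_mul]
        _ = ∑ j, ∑ l, ∑ k, ((starRingEnd ℂ) (B l j) * B l k) * z j * (starRingEnd ℂ) (z k) :=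
            Finset.sum_congr rfl fun j _ => Finset.sum_comm
        _ = ∑ l, ∑ j, ∑ k, ((starRingEnd ℂ) (B l j) * B l k) * z j * (starRingEnd ℂ) (z k) :=
            Finset.sum_comm
        _ = _ := by simp_rw [e1]
    rw [e, Complex.re_sum]
    refine Finset.sum_congr rfl fun l _ => ?_
    rw [Complex.mul_conj', ← Complex.ofReal_pow, Complex.ofReal_re]
  -- the change of variables
  set f : E n →ₗ[ℂ] E n := C.mulVecLin with hf
  have hdetf : LinearMap.det (f.restrictScalars ℝ) = H.det.re := by
    rw [LinearMap.det_restrictScalars, Algebra.norm_complex_apply, hdetH]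
    have : LinearMap.det f = C.det := by
      rw [hf, ← Matrix.toLin'_apply', LinearMap.det_toLin']
    rw [this, hdetC, Complex.normSq_conj, Complex.normSq_eq_norm_sq]
  have hne : LinearMap.det (f.restrictScalars ℝ) ≠ 0 := by rw [hdetf]; exact hdet0.ne'
  have hmap := Measure.map_linearMap_addHaar_eq_smul_addHaar (volume : Measure (E n)) hne
  set G : E n → ℝ := fun w => Real.exp (-(c * ∑ j, ‖w j‖ ^ 2)) with hG
  have hcomp : (fun z : E n => Real.exp (-(c * (∑ j, ∑ k, H j k * z j *
      (starRingEnd ℂ) (z k)).re))) = G ∘ (f.restrictScalars ℝ) := by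
    funext z
    simp only [hq, hG, Function.comp]
    rfl
  have hfc : Continuous (f.restrictScalars ℝ) := LinearMap.continuous_of_finiteDimensional _
  have hGc : Continuous G := by
    rw [hG]; fun_prop
  obtain ⟨hGi, hGint⟩ := gauss_std_h40 (n := n) hc
  rw [hcomp]
  constructor
  · have h1 : Integrable G (Measure.map (f.restrictScalars ℝ) volume) := by
      rw [hmap]
      exact hGi.smul_measure ENNReal.ofReal_ne_top
    exact h1.comp_measurable hfc.measurable
  · have h1 : ∫ z : E n, (G ∘ (f.restrictScalars ℝ)) z = ∫ w, G w ∂(Measure.map (f.restrictScalars ℝ) volume) := by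
      rw [integral_map hfc.measurable.aemeasurable hGc.aestronglyMeasurable]
      rfl
    rw [h1, hmap, integral_smul_measure, hGint, hdetf]
    rw [ENNReal.toReal_ofReal (abs_nonneg _), abs_of_pos (by positivity), smul_eq_mul,
      inv_mul_eq_div]

end Pool.Agent.helper63.NU
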