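import Pool.Agent.helper63.NU.Defs4
import Pool.Agent.helper63.NU.Stub.M0
import Pool.Agent.helper51.NU.B3

set_option autoImplicit false
set_option linter.all false

/-! Module M2e: the functions `l conj l' e^{-ψ/(n+1)}` on `ℂP^n`. -/

open MeasureTheory Filter Topology Set
open scoped ContDiff Manifold Matrix ENNReal ComplexOrder

noncomputable section

namespace Pool.Agent.helper63.NU

variable {n : ℕ}

namespace M2e

theorem ins_pmap (i i' : Fin (n + 1)) (y : E n) (h : ins i y i' ≠ 0) :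
    ins i' (pmap 1 i i' y) = fun a => ins i y a / ins i y i' := by
  funext a
  rcases eq_or_ne a i' with rfl | ha
  · simp [ins, div_self h]
    have h' : (i.insertNth 1 y : E (n + 1)) a ≠ 0 := h
    rw [div_self h']
  · obtain ⟨l, rfl⟩ := Fin.exists_succAbove_eq ha
    simp [ins, pmap, Matrix.one_mulVec]

theorem lf_pmap (c : E (n + 1)) (i i' : Fin (n + 1)) (y : E n) (h : ins i y i' ≠ 0) :
    lf c i' (pmap 1 i i' y) = lf c i y / ins i y i' := by
  unfold lf
  rw [ins_pmap i i' y h, Finset.sum_div]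
  exact Finset.sum_congr rfl fun a _ => by rw [mul_div_assoc]

theorem contDiff_lf {𝕜 : Type*} [NontriviallyNormedField 𝕜] [NormedAlgebra 𝕜 ℂ] {m : WithTop ℕ∞}
    (c : E (n + 1)) (i : Fin (n + 1)) : ContDiff 𝕜 m (lf c i) := by
  unfold lf
  refine ContDiff.sum fun a _ => contDiff_const.mul ?_
  exact (contDiff_pi.1 (CP.contDiff_ins (𝕜 := 𝕜) (m := m) i)) a

theorem lf_zero_ne {c : E (n + 1)} (hc : c ≠ 0) : ∃ y : E n, lf c 0 y ≠ 0 := by
  by_contra hno
  push Not at hno
  apply hc
  have h0 : c 0 = 0 := by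
    have := hno 0
    unfold lf ins at this
    rw [Fin.sum_univ_succ] at this
    simpa using this
  funext a
  refine Fin.cases h0 (fun l => ?_) a
  have := hno (Pi.single l 1)
  unfold lf ins at this
  rw [Fin.sum_univ_succ, h0] at this
  simp only [Fin.insertNth_zero, Fin.cons_succ, zero_mul, zero_add] at this
  rw [Finset.sum_eq_single l] at this
  · simpa using this
  · intro b _ hb
    simp [Pi.single_apply, hb]
  · intro h
    exact (h (Finset.mem_univ _)).elim

/-- an abstract finite-dimensional Hermitian inner product has an orthonormal basis -/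
theorem exists_basis {W : Type*} [AddCommGroup W] [Module ℂ W] [FiniteDimensional ℂ W] {m : ℕ}
    (hrank : Module.finrank ℂ W = m) (G : W → W → ℂ)
    (hadd : ∀ a b c, G (a + b) c = G a c + G b c) (hsmul : ∀ (t : ℂ) a c, G (t • a) c = t * G a c)
    (hconj : ∀ a b, (starRingEnd ℂ) (G a b) = G b a) (hpos : ∀ a, a ≠ 0 → 0 < (G a a).re) :
    ∃ A : Module.Basis (Fin m) ℂ W, (∀ a b, G (A a) (A b) = if a = b then 1 else 0) ∧
      ∀ c : W, c = ∑ a, G c (A a) • A a := by
  have hz : ∀ c, G 0 c = 0 := fun c => by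
    have := hsmul 0 0 c
    simpa using this
  letI core : InnerProductSpace.Core ℂ W :=
    { inner := fun x y => G y x
      conj_inner_symm := fun x y => hconj _ _
      re_inner_nonneg := fun x => by
        rcases eq_or_ne x 0 with rfl | hx
        · simp [hz]
        · exact (hpos x hx).le
      add_left := fun x y z => by
        change G z (x + y) = G z x + G z y
        rw [← hconj (x + y) z, hadd, map_add, hconj, hconj]
      smul_left := fun x y r => by
        change G y (r • x) = (starRingEnd ℂ) r * G y x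
        rw [← hconj (r • x) y, hsmul, map_mul, hconj]
      definite := fun x hx => by
        by_contra hne
        have h1 := hpos x hne
        have h2 : G x x = 0 := hx
        rw [h2] at h1
        simp at h1 }
  letI i3 : NormedAddCommGroup W := @InnerProductSpace.Core.toNormedAddCommGroup ℂ W _ _ _ core
  letI i4 : InnerProductSpace ℂ W := InnerProductSpace.ofCore core.toCore
  let b : OrthonormalBasis (Fin m) ℂ W := (stdOrthonormalBasis ℂ W).reindex (finCongr hrank)
  have hinner : ∀ x y : W, inner ℂ x y = G y x := fun x y => rfl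
  refine ⟨b.toBasis, ?_, ?_⟩
  · intro a c
    have := (orthonormal_iff_ite.1 b.orthonormal) c a
    rw [hinner] at this
    rw [OrthonormalBasis.coe_toBasis, this]
    simp [eq_comm]
  · intro c
    have := b.sum_repr' (c : W)
    rw [OrthonormalBasis.coe_toBasis]
    exact this.symm

theorem exists_onb {m : ℕ} (G : (Fin m → ℂ) → (Fin m → ℂ) → ℂ)
    (hadd : ∀ a b c, G (a + b) c = G a c + G b c) (hsmul : ∀ (t : ℂ) a c, G (t • a) c = t * G a c)
    (hconj : ∀ a b, (starRingEnd ℂ) (G a b) = G b a) (hpos : ∀ a, a ≠ 0 → 0 < (G a a).re) :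
    ∃ A : Matrix (Fin m) (Fin m) ℂ, IsUnit A.det ∧
      (∀ a b, G (A a) (A b) = if a = b then 1 else 0) ∧
      ∀ c : Fin m → ℂ, c = ∑ a, G c (A a) • A a := by
  obtain ⟨b, h1, h2⟩ := exists_basis (m := m) (by simp) G hadd hsmul hconj hpos
  refine ⟨fun a => b a, ?_, h1, h2⟩
  rw [← Matrix.isUnit_iff_isUnit_det, ← Matrix.linearIndependent_rows_iff_isUnit]
  exact b.linearIndependent

end M2e

theorem Fc_eq {ψ : Fam n (CP n) ℝ} (hψ : IsWeight 1 ψ) (c c' : E (n + 1)) (i : Fin (n + 1))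
    (y : E n) : Fc ψ c c' ((CP.chart i).symm y) = lf c i y * (starRingEnd ℂ) (lf c' i y) *
      (Real.exp (-(ψ (CP.chart i) y / (n + 1))) : ℂ) := by
  set x : CP n := (CP.chart i).symm y with hx
  have hi' : x.rep (idx x) ≠ 0 := Classical.choose_spec (CP.exists_rep_ne x)
  have hu : ins i y (idx x) ≠ 0 :=
    (CP.mem_source_chart (idx x) _ (CP.ins_ne i y)).1 hi'
  have hch : CP.chart (idx x) x = pmap 1 i (idx x) y := (pmap_one i (idx x) y hu).symm
  unfold Fc
  rw [hch, M2e.lf_pmap c i _ y hu, M2e.lf_pmap c' i _ y hu]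
  have hw := weight_CP hψ i (idx x) y hu
  set u : ℂ := ins i y (idx x) with hudef
  have hn : (0 : ℝ) < n + 1 := by positivity
  have hlog : ψ (CP.chart (idx x)) (pmap 1 i (idx x) y) / (n + 1)
      = ψ (CP.chart i) y / (n + 1) - Real.log (‖u‖ ^ 2) := by
    rw [hw]
    field_simp
    ring
  have hu2 : 0 < ‖u‖ ^ 2 := by positivity
  rw [hlog, neg_sub, sub_eq_add_neg, Real.exp_add, Real.exp_log hu2, map_div₀]
  have h1 : ((‖u‖ ^ 2 : ℝ) : ℂ) = u * (starRingEnd ℂ) u := by
    rw [Complex.mul_conj, Complex.normSq_eq_norm_sq]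
  push_cast at h1 ⊢
  rw [h1]
  have hcu : (starRingEnd ℂ) u ≠ 0 := (map_ne_zero _).2 hu
  field_simp

theorem Fc_sm {ψ : Fam n (CP n) ℝ} (hψ : IsWeight 1 ψ) (c c' : E (n + 1)) :
    Sm n (Fc ψ c c') := by
  rintro _ ⟨i, rfl⟩
  have h1 : (fun y => Fc ψ c c' ((CP.chart i).symm y)) = fun y =>
      lf c i y * (starRingEnd ℂ) (lf c' i y) * (Real.exp (-(ψ (CP.chart i) y / (n + 1))) : ℂ) :=
    funext fun y => Fc_eq hψ c c' i y
  rw [h1]
  have hψs : ContDiffOn ℝ ∞ (ψ (CP.chart i)) (CP.chart i).target :=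
    hψ.smooth _ (mem_range_self i)
  refine ContDiffOn.mul (ContDiffOn.mul ?_ ?_) ?_
  · exact (M2e.contDiff_lf c i).contDiffOn
  · exact (Complex.conjCLE.contDiff.comp (M2e.contDiff_lf c' i)).contDiffOn
  · exact Complex.ofRealCLM.contDiff.comp_contDiffOn
      (Real.contDiff_exp.comp_contDiffOn (hψs.div_const _).neg)

theorem Fc_add (ψ : Fam n (CP n) ℝ) (c d c' : E (n + 1)) (x : CP n) :
    Fc ψ (c + d) c' x = Fc ψ c c' x + Fc ψ d c' x := by
  unfold Fc lf
  simp only [Pi.add_apply, add_mul, Finset.sum_add_distrib]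

theorem Fc_smul (ψ : Fam n (CP n) ℝ) (t : ℂ) (c c' : E (n + 1)) (x : CP n) :
    Fc ψ (t • c) c' x = t * Fc ψ c c' x := by
  unfold Fc lf
  simp only [Pi.smul_apply, smul_eq_mul, mul_assoc, ← Finset.mul_sum]

theorem Fc_conj (ψ : Fam n (CP n) ℝ) (c c' : E (n + 1)) (x : CP n) :
    (starRingEnd ℂ) (Fc ψ c c' x) = Fc ψ c' c x := by
  unfold Fc
  simp only [map_mul, Complex.conj_conj, Complex.conj_ofReal]
  ring

namespace M2e

theorem continuous_of_sm {f : CP n → ℂ} (hf : Sm n f) : Continuous f := by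
  rw [continuous_iff_continuousAt]
  intro x
  have he : chartAt (E n) x ∈ atlas (E n) (CP n) := chart_mem_atlas _ _
  have hx : x ∈ (chartAt (E n) x).source := mem_chart_source _ _
  have h1 : ContinuousAt (fun y => f ((chartAt (E n) x).symm y)) (chartAt (E n) x x) :=
    (hf _ he).continuousOn.continuousAt
      ((chartAt (E n) x).open_target.mem_nhds ((chartAt (E n) x).map_source hx))
  have h2 : ContinuousAt (chartAt (E n) x) x := (chartAt (E n) x).continuousAt hx
  refine (ContinuousAt.comp (f := chartAt (E n) x) h1 h2).congr ?_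
  filter_upwards [(chartAt (E n) x).open_source.mem_nhds hx] with z hz
  simp only [Function.comp_apply]
  rw [(chartAt (E n) x).left_inv hz]

theorem Fc_self (ψ : Fam n (CP n) ℝ) (c : E (n + 1)) (x : CP n) :
    0 ≤ (Fc ψ c c x).re := by
  unfold Fc
  rw [Complex.mul_conj, ← Complex.ofReal_mul, Complex.ofReal_re]
  exact mul_nonneg (Complex.normSq_nonneg _) (Real.exp_pos _).le

end M2e

theorem Fc_integrable {ψ : Fam n (CP n) ℝ} (hψ : IsWeight 1 ψ) {μ : Measure (CP n)}
    (hμ : IsDens μ ψ) (c c' : E (n + 1)) : Integrable (Fc ψ c c') μ := by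
  haveI := isFiniteMeasure_of_isDens hψ hμ
  exact (M2e.continuous_of_sm (Fc_sm hψ c c')).integrable_of_hasCompactSupport
    (HasCompactSupport.of_compactSpace _)

theorem Fc_pos {ψ : Fam n (CP n) ℝ} (hψ : IsWeight 1 ψ) {μ : Measure (CP n)}
    (hμ : IsDens μ ψ) {c : E (n + 1)} (hc : c ≠ 0) : 0 < (∫ x, Fc ψ c c x ∂μ).re := by
  haveI := isFiniteMeasure_of_isDens hψ hμ
  haveI := isOpenPosMeasure_of_isDens hψ hμ
  have h1 : (∫ x, Fc ψ c c x ∂μ).re = ∫ x, (Fc ψ c c x).re ∂μ :=
    (integral_re (Fc_integrable hψ hμ c c)).symm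
  rw [h1]
  obtain ⟨y, hy⟩ := M2e.lf_zero_ne hc
  refine Continuous.integral_pos_of_hasCompactSupport_nonneg_nonzero
    (x := (CP.chart 0).symm y)
    (Complex.continuous_re.comp (M2e.continuous_of_sm (Fc_sm hψ c c)))
    (HasCompactSupport.of_compactSpace _) (fun x => M2e.Fc_self ψ c x) ?_
  show (Fc ψ c c ((CP.chart 0).symm y)).re ≠ 0
  rw [Fc_eq hψ, Complex.mul_conj, ← Complex.ofReal_mul, Complex.ofReal_re]
  exact mul_ne_zero (fun h => hy (Complex.normSq_eq_zero.1 h)) (Real.exp_pos _).ne'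

/-- a basis of linear forms which is orthonormal for `∫ l conj l' e^{-ψ/(n+1)} dμ` -/
theorem Fc_onb {ψ : Fam n (CP n) ℝ} (hψ : IsWeight 1 ψ) {μ : Measure (CP n)}
    (hμ : IsDens μ ψ) : ∃ A : Matrix (Fin (n + 1)) (Fin (n + 1)) ℂ, IsUnit A.det ∧
      (∀ a b, ∫ x, Fc ψ (A a) (A b) x ∂μ = if a = b then 1 else 0) ∧
      ∀ c : E (n + 1), c = ∑ a, (∫ x, Fc ψ c (A a) x ∂μ) • A a := by
  refine M2e.exists_onb (fun c c' => ∫ x, Fc ψ c c' x ∂μ) ?_ ?_ ?_ ?_
  · intro a b c
    simp only [Fc_add]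
    exact integral_add (Fc_integrable hψ hμ _ _) (Fc_integrable hψ hμ _ _)
  · intro t a c
    simp only [Fc_smul]
    exact integral_const_mul _ _
  · intro a b
    rw [← integral_conj]
    simp only [Fc_conj]
  · intro a ha
    exact Fc_pos hψ hμ ha

end Pool.Agent.helper63.NU
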