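import Pool.Agent.helper63.NU.Defs4
import Pool.Agent.helper69.NU.A9

set_option autoImplicit false
set_option linter.all false

/-! Module M1b: the map to `ℂP^n` is a local biholomorphism. -/

open MeasureTheory Filter Topology Set
open scoped ContDiff Manifold Matrix ENNReal ComplexOrder

noncomputable section

namespace Pool.Agent.helper63.NU

variable {n : ℕ} {M : Type*} [TopologicalSpace M] [ChartedSpace (E n) M]
  [IsManifold 𝓘(ℂ, E n) ω M]

namespace M1b

/-- a continuous linear endomorphism of `ℂ^n` with trivial kernel is an equivalence -/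
theorem exists_equiv (L : E n →L[ℂ] E n) (hL : ∀ v, L v = 0 → v = 0) :
    ∃ L' : E n ≃L[ℂ] E n, (L' : E n →L[ℂ] E n) = L := by
  have hinj : Function.Injective (L : E n →ₗ[ℂ] E n) :=
    (injective_iff_map_eq_zero (L : E n →ₗ[ℂ] E n)).2 hL
  let L1 : E n ≃ₗ[ℂ] E n := LinearEquiv.ofInjectiveEndo (L : E n →ₗ[ℂ] E n) hinj
  refine ⟨L1.toContinuousLinearEquiv, ?_⟩
  ext v j
  rfl

/-- the inverse function theorem on an open set -/
theorem exists_partial {V : Set (E n)} (hV : IsOpen V) {g : E n → E n}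
    (hg : ∀ y ∈ V, ContDiffAt ℂ ω g y) (hinj : ∀ y ∈ V, ∀ v, fderiv ℂ g y v = 0 → v = 0)
    {y₀ : E n} (hy₀ : y₀ ∈ V) :
    ∃ G : OpenPartialHomeomorph (E n) (E n), y₀ ∈ G.source ∧ G.source ⊆ V ∧
      (∀ y, G y = g y) ∧ ContDiffOn ℂ ω G G.source ∧ ContDiffOn ℂ ω G.symm G.target := by
  obtain ⟨L, hL⟩ := exists_equiv (fderiv ℂ g y₀) (hinj y₀ hy₀)
  have hne : (ω : WithTop ℕ∞) ≠ 0 := by simp
  have hd : ∀ y ∈ V, HasFDerivAt g (fderiv ℂ g y) y := fun y hy =>
    ((hg y hy).differentiableAt hne).hasFDerivAt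
  have h0 : HasFDerivAt g (L : E n →L[ℂ] E n) y₀ := by
    rw [hL]
    exact hd y₀ hy₀
  let G₀ : OpenPartialHomeomorph (E n) (E n) := (hg y₀ hy₀).toOpenPartialHomeomorph g h0 hne
  have hG₀ : ∀ y, G₀ y = g y := fun y => rfl
  refine ⟨G₀.restrOpen V hV, ⟨(hg y₀ hy₀).mem_toOpenPartialHomeomorph_source h0 hne, hy₀⟩,
    fun y hy => hy.2, fun y => rfl, ?_, ?_⟩
  · intro y hy
    exact (hg y hy.2).contDiffWithinAt
  · intro y hy
    have hy' := (G₀.restrOpen V hV).map_target hy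
    have hyV : (G₀.restrOpen V hV).symm y ∈ V := hy'.2
    obtain ⟨L', hL'⟩ := exists_equiv (fderiv ℂ g _) (hinj _ hyV)
    refine (OpenPartialHomeomorph.contDiffAt_symm (G₀.restrOpen V hV) hy (f₀' := L') ?_
      (hg _ hyV)).contDiffWithinAt
    rw [hL']
    exact hd _ hyV

end M1b

theorem map_local {z : (Fin (n + 1) → ℕ) → Fam n M ℂ} (hz : IsZ z) {Φ : M → CP n}
    (hΦ : ∀ e ∈ atlas (E n) M, ∀ x ∈ e.source, ∀ i : Fin (n + 1),
      (Φ x ∈ (CP.chart i).source ↔ z ((n + 1) • Pi.single i 1) e (e x) ≠ 0) ∧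
      (z ((n + 1) • Pi.single i 1) e (e x) ≠ 0 → ∀ j : Fin n, CP.chart i (Φ x) j
        = z (n • Pi.single i 1 + Pi.single (i.succAbove j) 1) e (e x) /
          z ((n + 1) • Pi.single i 1) e (e x))) :
    IsLocalDiffeomorph 𝓘(ℂ, E n) 𝓘(ℂ, E n) ω Φ := by
  intro x₀
  set e : OpenPartialHomeomorph M (E n) := chartAt (E n) x₀ with he_def
  have he : e ∈ atlas (E n) M := chart_mem_atlas _ _
  have hx₀ : x₀ ∈ e.source := mem_chart_source _ _
  obtain ⟨i, hi⟩ := hz.base e he (e x₀) (e.map_source hx₀)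
  have hsum0 : ∑ l, ((n + 1) • (Pi.single i 1 : Fin (n + 1) → ℕ)) l = n + 1 := by
    simp [← Finset.mul_sum]
  have hsum : ∀ j : Fin (n + 1),
      ∑ l, (n • (Pi.single i 1 : Fin (n + 1) → ℕ) + (Pi.single j 1 : Fin (n + 1) → ℕ)) l
        = n + 1 := by
    intro j
    simp [← Finset.mul_sum, Finset.sum_add_distrib]
  have hhol : ∀ α : Fin (n + 1) → ℕ, ∑ l, α l = n + 1 → AnalyticOnNhd ℂ (z α e) e.target :=
    fun α hα => osgood e.open_target ((hz.mem α hα).1.hol e he)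
  set z0 : E n → ℂ := z ((n + 1) • Pi.single i 1) e with hz0
  have hz0a : AnalyticOnNhd ℂ z0 e.target := hhol _ hsum0
  set V : Set (E n) := e.target ∩ {y | z0 y ≠ 0} with hVdef
  have hV : IsOpen V :=
    hz0a.continuousOn.isOpen_inter_preimage e.open_target isOpen_compl_singleton
  let g : E n → E n := fun y j =>
    z (n • Pi.single i 1 + Pi.single (i.succAbove j) 1) e y / z0 y
  have hg : ∀ y ∈ V, ContDiffAt ℂ ω g y := by
    intro y hy
    rw [contDiffAt_pi]
    intro j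
    exact (((hhol _ (hsum _)) y hy.1).div (hz0a y hy.1) hy.2).contDiffAt
  have hinj : ∀ y ∈ V, ∀ v, fderiv ℂ g y v = 0 → v = 0 := by
    intro y hy v hv
    refine hz.imm e he y hy.1 i hy.2 v fun j => ?_
    rcases eq_or_ne j i with rfl | hj
    · have hev : (fun y' => z (n • Pi.single j 1 + Pi.single j 1) e y' /
          z ((n + 1) • Pi.single j 1) e y') =ᶠ[𝓝 y] fun _ => (1 : ℂ) := by
        filter_upwards [hV.mem_nhds hy] with y' hy'
        have h1 : (n • Pi.single j 1 + Pi.single j 1 : Fin (n + 1) → ℕ)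
            = (n + 1) • Pi.single j 1 := by
          rw [succ_nsmul]
        rw [h1]
        exact div_self hy'.2
      rw [hev.fderiv_eq]
      simp
    · obtain ⟨l, rfl⟩ := Fin.exists_succAbove_eq hj
      have hda : DifferentiableAt ℂ g y := (hg y hy).differentiableAt (by simp)
      have h1 : fderiv ℂ (fun y' => g y' l) y v = (fderiv ℂ g y v) l := by
        rw [fderiv_apply hda]
        rfl
      have h2 : fderiv ℂ (fun y' => g y' l) y v = 0 := by
        rw [h1, hv]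
        rfl
      exact h2
  obtain ⟨G, hG0, hGV, hGg, hGs, hGt⟩ := M1b.exists_partial hV hg hinj
    (y₀ := e x₀) ⟨e.map_source hx₀, hi⟩
  let c : Ch n (CP n) := CP.chart i
  have hc : c ∈ atlas (E n) (CP n) := mem_range_self i
  let F : OpenPartialHomeomorph M (CP n) := (e.trans G).trans c.symm
  have hFs : ∀ x, x ∈ F.source ↔ x ∈ e.source ∧ e x ∈ G.source := by
    intro x
    show x ∈ ((e.trans G).trans c.symm).source ↔ _
    rw [OpenPartialHomeomorph.trans_source, OpenPartialHomeomorph.trans_source]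
    simp only [mem_inter_iff, mem_preimage]
    constructor
    · intro h
      exact h.1
    · intro h
      exact ⟨h, mem_univ _⟩
  have hFt : ∀ q, q ∈ F.target → q ∈ c.source ∧ c q ∈ G.target ∧ G.symm (c q) ∈ e.target := by
    intro q hq
    have h : q ∈ ((e.trans G).trans c.symm).target := hq
    rw [OpenPartialHomeomorph.trans_target, OpenPartialHomeomorph.trans_target] at h
    exact ⟨h.1, h.2.1, h.2.2⟩
  have heq : ∀ x ∈ F.source, Φ x = F x := by
    intro x hx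
    obtain ⟨h1, h2⟩ := (hFs x).1 hx
    have h3 : z0 (e x) ≠ 0 := (hGV h2).2
    obtain ⟨h4, h5⟩ := hΦ e he x h1 i
    have h6 : Φ x ∈ c.source := h4.2 h3
    have h7 : c (Φ x) = G (e x) := by
      funext j
      rw [hGg]
      exact h5 h3 j
    show Φ x = c.symm (G (e x))
    rw [← h7, c.left_inv h6]
  have heM : e ∈ IsManifold.maximalAtlas 𝓘(ℂ, E n) ω M :=
    IsManifold.chart_mem_maximalAtlas x₀
  have hcM : c ∈ IsManifold.maximalAtlas 𝓘(ℂ, E n) ω (CP n) :=
    IsManifold.subset_maximalAtlas hc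
  refine ⟨⟨F.toPartialEquiv, F.open_source, F.open_target, ?_, ?_⟩,
    (hFs x₀).2 ⟨hx₀, hG0⟩, heq⟩
  · have h1 : ContMDiffOn 𝓘(ℂ, E n) 𝓘(ℂ, E n) ω e e.source :=
      contMDiffOn_of_mem_maximalAtlas heM
    have h2 : ContMDiffOn 𝓘(ℂ, E n) 𝓘(ℂ, E n) ω G G.source := hGs.contMDiffOn
    have h3 : ContMDiffOn 𝓘(ℂ, E n) 𝓘(ℂ, E n) ω c.symm c.target :=
      contMDiffOn_symm_of_mem_maximalAtlas hcM
    have h12 : ContMDiffOn 𝓘(ℂ, E n) 𝓘(ℂ, E n) ω (G ∘ e) F.source :=
      h2.comp (h1.mono fun x hx => ((hFs x).1 hx).1) fun x hx => ((hFs x).1 hx).2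
    exact h3.comp h12 fun x _ => mem_univ _
  · have h1 : ContMDiffOn 𝓘(ℂ, E n) 𝓘(ℂ, E n) ω e.symm e.target :=
      contMDiffOn_symm_of_mem_maximalAtlas heM
    have h2 : ContMDiffOn 𝓘(ℂ, E n) 𝓘(ℂ, E n) ω G.symm G.target := hGt.contMDiffOn
    have h3 : ContMDiffOn 𝓘(ℂ, E n) 𝓘(ℂ, E n) ω c c.source :=
      contMDiffOn_of_mem_maximalAtlas hcM
    have h23 : ContMDiffOn 𝓘(ℂ, E n) 𝓘(ℂ, E n) ω (G.symm ∘ c) F.target :=
      h2.comp (h3.mono fun q hq => (hFt q hq).1) fun q hq => (hFt q hq).2.1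
    exact h1.comp h23 fun q hq => (hFt q hq).2.2

end Pool.Agent.helper63.NU
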